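import Mathlib

namespace Pool.Agent.Lib.helper5.PTree

open SimpleGraph

variable {ι : Type}

/-- The tree given by a parent map. -/
def PT (root : ι) (par : ι → ι) : SimpleGraph ι := fromRel fun u v => u ≠ root ∧ par u = v

variable {root : ι} {par : ι → ι} (rk : ι → ℕ) (h : ∀ v, v ≠ root → rk (par v) < rk v)
include h

theorem adj (v : ι) (hv : v ≠ root) : (PT root par).Adj v (par v) :=
  ⟨fun e => (h v hv).ne (by rw [← e]), Or.inl ⟨hv, rfl⟩⟩

theorem sub_conn (S : Set ι) (top : ι) (ht : top ∈ S)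
    (hS : ∀ s ∈ S, s ≠ top → s ≠ root ∧ par s ∈ S) : ((PT root par).induce S).Connected := by
  have hr : ∀ n (v : S), rk v = n → ((PT root par).induce S).Reachable v ⟨top, ht⟩ := by
    intro n
    induction n using Nat.strong_induction_on with
    | _ n ih =>
      rintro ⟨v, hv⟩ rfl
      by_cases e : v = top
      · subst e
        rfl
      · obtain ⟨a, b⟩ := hS v hv e
        exact (Adj.reachable (v := ⟨par v, b⟩) (adj rk h v a)).trans (ih _ (h v a) _ rfl)
  exact @Connected.mk _ _ (fun u v => (hr _ u rfl).trans (hr _ v rfl).symm) ⟨⟨top, ht⟩⟩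

theorem isTree [Finite ι] : (PT root par).IsTree := by
  classical
  rw [isTree_iff_connected_and_card]
  refine ⟨(induceUnivIso _).connected_iff.mp
    (sub_conn rk h Set.univ root trivial fun s _ e => ⟨e, trivial⟩), ?_⟩
  have e : Nat.card {v : ι // v ≠ root} = Nat.card (PT root par).edgeSet := by
    refine Nat.card_eq_of_bijective (fun v => ⟨s(v.1, par v.1), adj rk h v.1 v.2⟩) ⟨?_, ?_⟩
    · rintro ⟨u, hu⟩ ⟨v, hv⟩ huv
      have huv' : s(u, par u) = s(v, par v) := congrArg Subtype.val huv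
      rcases Sym2.eq_iff.1 huv' with ⟨q, -⟩ | ⟨h1, h2⟩
      · exact Subtype.ext q
      · have a := h u hu
        have b := h v hv
        rw [h2] at a
        rw [← h1] at b
        omega
    · rintro ⟨⟨u, v⟩, -, ⟨h1, h2⟩ | ⟨h1, h2⟩⟩
      · exact ⟨⟨u, h1⟩, Subtype.ext (Sym2.eq_iff.mpr (Or.inl ⟨rfl, h2⟩))⟩
      · exact ⟨⟨v, h1⟩, Subtype.ext (Sym2.eq_iff.mpr (Or.inr ⟨rfl, h2⟩))⟩
  have := Fintype.ofFinite ι
  rw [← e, Nat.card_eq_fintype_card, Nat.card_eq_fintype_card, Fintype.card_subtype_compl,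
    Fintype.card_subtype_eq]
  exact Nat.sub_add_cancel (Fintype.card_pos_iff.mpr ⟨root⟩)

omit h in
/-- In a tree-decomposition, the intersection of two adjacent bags separates the two sides. -/
theorem sep {V : Type} {G : SimpleGraph V} {T : SimpleGraph ι} (hT : T.IsAcyclic) (B : ι → Set V)
    (h1 : ∀ u v, G.Adj u v → ∃ t, u ∈ B t ∧ v ∈ B t)
    (h2 : ∀ v, (T.induce {t | v ∈ B t}).Preconnected) {a c : ι} (p : T.Walk a c) (hp : p.IsPath)
    (d : T.Dart) (hd : d ∈ p.darts) {u v : V} (W : G.Walk u v) (ha : u ∈ B a) (hc : v ∈ B c) :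
    ∃ z ∈ W.support, z ∈ B d.fst ∧ z ∈ B d.snd := by
  classical
  by_contra hn
  push Not at hn
  have one : ∀ z ∈ W.support, ∀ s t, z ∈ B s → z ∈ B t → (T.deleteEdges {d.edge}).Reachable s t := by
    intro z hz s t hs ht
    refine (h2 z ⟨s, hs⟩ ⟨t, ht⟩).map (G' := T.deleteEdges {d.edge}) ⟨Subtype.val, ?_⟩
    rintro ⟨x, hx⟩ ⟨y, hy⟩ hxy
    refine deleteEdges_adj.mpr ⟨hxy, fun e => ?_⟩
    rcases Sym2.eq_iff.mp (show s(x, y) = s(d.fst, d.snd) from e) with ⟨rfl, rfl⟩ | ⟨rfl, rfl⟩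
    · exact hn z hz hx hy
    · exact hn z hz hy hx
  have key : (T.deleteEdges {d.edge}).Reachable a c := by
    clear hn hp hd p
    induction W generalizing a with
    | nil => exact one _ (by simp) _ _ ha hc
    | cons e W ih =>
      obtain ⟨t, h3, h4⟩ := h1 _ _ e
      exact (one _ (by simp) _ _ ha h3).trans (ih h4 hc fun z hz => one z (by simp [hz]))
  obtain ⟨q, hq⟩ := key.exists_isPath
  have e := (hT.subsingleton_path a c).elim ⟨p, hp⟩ ⟨q.mapLe (deleteEdges_le _), hq.mapLe _⟩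
  have h5 : d.edge ∈ p.edges := List.mem_map_of_mem hd
  rw [show p = q.mapLe (deleteEdges_le _) from congrArg Subtype.val e,
    Walk.edges_mapLe_eq_edges] at h5
  simpa using q.edges_subset_edgeSet h5

end Pool.Agent.Lib.helper5.PTree
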