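import Mathlib

namespace Pool.Agent.Lib.helper5.Book

open SimpleGraph

/-- A drawing in the plane: distinct points, edges are simple arcs that meet vertices and other
edges only at their ends. -/
def Planar {V : Type} (G : SimpleGraph V) : Prop :=
  ∃ (p : V → ℝ × ℝ) (γ : V → V → unitInterval → ℝ × ℝ), Function.Injective p ∧
    (∀ u v, G.Adj u v → Continuous (γ u v) ∧ Function.Injective (γ u v) ∧ γ u v 0 = p u ∧
      γ u v 1 = p v ∧ ∀ w t, γ u v t = p w → t = 0 ∨ t = 1) ∧
    ∀ u v x y, G.Adj u v → G.Adj x y → s(u, v) ≠ s(x, y) →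
      ∀ s t, γ u v s = γ x y t → s = 0 ∨ s = 1

theorem core {a b c d X : ℝ} (h1 : a < X) (h2 : X < b) (h3 : c ≤ X) (h4 : X ≤ d)
    (h : (X - a) * (b - X) = (X - c) * (d - X)) (n1 : ¬ (a < c ∧ c < b ∧ b < d))
    (n2 : ¬ (c < a ∧ a < d ∧ d < b)) : a = c ∧ b = d := by
  have p : 0 < (X - a) * (b - X) := mul_pos (by linarith) (by linarith)
  have h5 : c < X := lt_of_le_of_ne h3 (by rintro rfl; simp at h; rcases h with h | h <;> linarith)
  have h6 : X < d := lt_of_le_of_ne h4 (by rintro rfl; simp at h; rcases h with h | h <;> linarith)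
  rcases lt_trichotomy a c with e | e | e
  · have : d ≤ b := not_lt.mp fun q => n1 ⟨e, by linarith, q⟩
    nlinarith [mul_pos (sub_pos.mpr e) (sub_pos.mpr h2), mul_nonneg (sub_pos.mpr h5).le (sub_nonneg.mpr this)]
  · subst e
    exact ⟨rfl, by have := mul_left_cancel₀ (sub_pos.mpr h1).ne' h; linarith⟩
  · have : b ≤ d := not_lt.mp fun q => n2 ⟨e, by linarith, q⟩
    nlinarith [mul_pos (sub_pos.mpr e) (sub_pos.mpr h6), mul_nonneg (sub_pos.mpr h1).le (sub_nonneg.mpr this)]

theorem book_real {V : Type} (E : V → V → Prop) (ρ : V → ℝ) (hρ : Function.Injective ρ)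
    (pg : V → V → Bool) (hE : ∀ u v, E u v → ρ u < ρ v)
    (hx : ∀ u v x y, E u v → E x y → pg u v = pg x y → ¬ (ρ u < ρ x ∧ ρ x < ρ v ∧ ρ v < ρ y)) :
    Planar (fromRel E) := by
  classical
  let σ : V → V → ℝ := fun u v => if pg u v then 1 else -1
  let X : V → V → unitInterval → ℝ := fun u v t => ρ u + t * (ρ v - ρ u)
  let γ : V → V → unitInterval → ℝ × ℝ := fun u v t =>
    (X u v t, (if ρ u < ρ v then σ u v else σ v u) * ((X u v t - ρ u) * (ρ v - X u v t)))
  have key : ∀ u v, (fromRel E).Adj u v → ∃ a b, E a b ∧ s(a, b) = s(u, v) ∧ ∀ t,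
      (ρ a ≤ (γ u v t).1 ∧ (γ u v t).1 ≤ ρ b) ∧
      (γ u v t).2 = σ a b * (((γ u v t).1 - ρ a) * (ρ b - (γ u v t).1)) ∧
      (¬ (t = 0 ∨ t = 1) → ρ a < (γ u v t).1 ∧ (γ u v t).1 < ρ b) := by
    have q : ∀ t : unitInterval, ¬ (t = 0 ∨ t = 1) → (0 : ℝ) < t ∧ (t : ℝ) < 1 := fun t h =>
      ⟨lt_of_le_of_ne t.2.1 fun e => h (Or.inl (Subtype.ext e.symm)),
        lt_of_le_of_ne t.2.2 fun e => h (Or.inr (Subtype.ext e))⟩
    rintro u v ⟨-, h | h⟩
    · have := hE _ _ h
      refine ⟨u, v, h, rfl, fun t => ⟨?_, by simp only [γ, if_pos this], fun ht => ?_⟩⟩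
      · have := t.2.1
        have := t.2.2
        simp only [γ, X]
        constructor <;> nlinarith
      · have := q t ht
        simp only [γ, X]
        constructor <;> nlinarith
    · have := hE _ _ h
      refine ⟨v, u, h, Sym2.eq_swap, fun t => ⟨?_, by simp only [γ, if_neg this.not_gt]; ring,
        fun ht => ?_⟩⟩
      · have := t.2.1
        have := t.2.2
        simp only [γ, X]
        constructor <;> nlinarith
      · have := q t ht
        simp only [γ, X]
        constructor <;> nlinarith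
  have hσ : ∀ u v, σ u v = 1 ∨ σ u v = -1 := fun u v => by simp only [σ]; split_ifs <;> simp
  refine ⟨fun v => (ρ v, 0), γ, fun u v h => hρ (congrArg Prod.fst h), fun u v h =>
    ⟨by simp only [γ, X]; fun_prop, fun s t e => ?_, by simp [γ, X], by simp [γ, X],
      fun w t e => ?_⟩, fun u v x y h h' ne s t e => ?_⟩
  · have e1 : ρ u + s * (ρ v - ρ u) = ρ u + t * (ρ v - ρ u) := congrArg Prod.fst e
    exact Subtype.ext (mul_right_cancel₀ (sub_ne_zero.mpr fun q => h.ne (hρ q).symm)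
      (add_left_cancel e1))
  · by_contra ht
    obtain ⟨a, b, -, -, h3⟩ := key u v h
    obtain ⟨-, h4, h5⟩ := h3 t
    have := mul_pos (sub_pos.mpr (h5 ht).1) (sub_pos.mpr (h5 ht).2)
    have h6 : (γ u v t).2 = 0 := congrArg Prod.snd e
    rcases hσ a b with q | q <;> rw [q] at h4 <;> linarith
  · by_contra hs
    obtain ⟨a, b, h1, h2, h3⟩ := key u v h
    obtain ⟨c, d, g1, g2, g3⟩ := key x y h'
    obtain ⟨-, h4, h5⟩ := h3 s
    obtain ⟨g4, g5, -⟩ := g3 t
    rw [← e, h4] at g5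
    rw [← e] at g4
    have p1 := mul_pos (sub_pos.mpr (h5 hs).1) (sub_pos.mpr (h5 hs).2)
    have p2 := mul_nonneg (sub_nonneg.mpr g4.1) (sub_nonneg.mpr g4.2)
    have hp : pg a b = pg c d := by
      by_contra q
      simp only [σ] at g5
      cases q1 : pg a b <;> cases q2 : pg c d <;> rw [q1, q2] at g5 q <;>
        first | exact q rfl | (norm_num at g5; linarith)
    have hs' : σ a b = σ c d := by simp only [σ, hp]
    rw [← hs'] at g5
    obtain ⟨e1, e2⟩ := core (h5 hs).1 (h5 hs).2 g4.1 g4.2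
      (mul_left_cancel₀ (by rcases hσ a b with q | q <;> simp [q]) g5)
      (hx _ _ _ _ h1 g1 hp) (hx _ _ _ _ g1 h1 hp.symm)
    exact ne (by rw [← h2, ← g2, hρ e1, hρ e2])

/-- A two-page book embedding gives a plane drawing. -/
theorem book {V α : Type} [Fintype V] [LinearOrder α] (E : V → V → Prop) (ρ : V → α)
    (hρ : Function.Injective ρ) (pg : V → V → Bool) (hE : ∀ u v, E u v → ρ u < ρ v)
    (hx : ∀ u v x y, E u v → E x y → pg u v = pg x y → ¬ (ρ u < ρ x ∧ ρ x < ρ v ∧ ρ v < ρ y)) :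
    Planar (fromRel E) := by
  let r : V → ℝ := fun v => (Finset.univ.filter fun w => ρ w < ρ v).card
  have h1 : ∀ u v, ρ u < ρ v → r u < r v := fun u v h => Nat.cast_lt.mpr (Finset.card_lt_card
    ⟨fun w hw => by simp only [Finset.mem_filter, Finset.mem_univ, true_and] at hw ⊢; exact hw.trans h,
      fun q => by simpa using q (show u ∈ _ by simpa using h)⟩)
  have h2 : ∀ u v, r u < r v → ρ u < ρ v := fun u v h => by
    rcases lt_trichotomy (ρ u) (ρ v) with e | e | e
    · exact e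
    · rw [hρ e] at h
      exact absurd h (lt_irrefl _)
    · exact absurd h (h1 _ _ e).not_gt
  refine book_real E r (fun u v h => hρ ?_) pg (fun u v h => h1 _ _ (hE u v h))
    fun u v x y a b c h => hx u v x y a b c ⟨h2 _ _ h.1, h2 _ _ h.2.1, h2 _ _ h.2.2⟩
  exact le_antisymm (not_lt.mp fun q => (h1 _ _ q).ne' h) (not_lt.mp fun q => (h1 _ _ q).ne h)

end Pool.Agent.Lib.helper5.Book
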