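import Mathlib

namespace Pool.Agent.Lib.helper5.Ray

open Set Filter Topology

abbrev E := EuclideanSpace ℝ (Fin 2)

theorem ray (v : ℕ → E) (hv : Tendsto v atTop (cocompact E)) (B : ℝ)
    (hb : ∀ n, ‖v (n + 1) - v n‖ ≤ B)
    (inj : ∀ m n, ∀ s ∈ Ico (0 : ℝ) 1, ∀ t ∈ Ico (0 : ℝ) 1,
      v m + s • (v (m + 1) - v m) = v n + t • (v (n + 1) - v n) → m = n ∧ s = t) :
    ∃ γ : Ici (0 : ℝ) → E, IsProperMap γ ∧ γ.Injective ∧
      range γ = {x | ∃ n, ∃ s ∈ Ico (0 : ℝ) 1, x = v n + s • (v (n + 1) - v n)} := by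
  let γ : Ici (0 : ℝ) → E := fun t => v ⌊t.1⌋₊ + (t.1 - ⌊t.1⌋₊) • (v (⌊t.1⌋₊ + 1) - v ⌊t.1⌋₊)
  have fr : ∀ t : Ici (0 : ℝ), t.1 - ⌊t.1⌋₊ ∈ Ico (0 : ℝ) 1 := fun t =>
    ⟨sub_nonneg.mpr (Nat.floor_le t.2), sub_lt_iff_lt_add'.mpr (Nat.lt_floor_add_one _)⟩
  refine ⟨γ, isProperMap_iff_tendsto_cocompact.mpr ⟨?_, ?_⟩, fun s t e => ?_, ?_⟩
  · refine LocallyFinite.continuous (f := fun n : ℕ => {t : Ici (0 : ℝ) | t.1 ∈ Icc (n : ℝ) (n + 1)})
      (fun t => ⟨{s | s.1 < t.1 + 1}, (isOpen_lt (by fun_prop) (by fun_prop)).mem_nhds (by simp),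
        (finite_le_nat ⌈t.1 + 1⌉₊).subset ?_⟩) (eq_univ_of_forall fun t => mem_iUnion.mpr
        ⟨⌊t.1⌋₊, Nat.floor_le t.2, (Nat.lt_floor_add_one _).le⟩)
      (fun n => isClosed_Icc.preimage (by fun_prop)) fun n => ?_
    · rintro n ⟨s, a, b⟩
      exact_mod_cast (a.1.trans (le_of_lt b)).trans (Nat.le_ceil _)
    · refine ContinuousOn.congr (f := fun t : Ici (0 : ℝ) => v n + (t.1 - n) • (v (n + 1) - v n))
        (by fun_prop) fun t ht => ?_
      rcases ht.2.eq_or_lt with e | e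
      · have : ⌊t.1⌋₊ = n + 1 := by rw [e]; exact_mod_cast Nat.floor_natCast (R := ℝ) (n + 1)
        simp only [γ, this]
        rw [e]
        simp
      · simp only [γ, (Nat.floor_eq_iff t.2).mpr ⟨ht.1, e⟩]
  · have a : Tendsto (fun t : Ici (0 : ℝ) => t.1) (cocompact _) atTop := by
      refine tendsto_atTop.mpr fun b => mem_of_superset
        ((isClosed_Ici.isClosedEmbedding_subtypeVal.isCompact_preimage
          (isCompact_Icc (a := 0) (b := b))).compl_mem_cocompact) fun t ht => ?_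
      exact (not_le.mp fun q => ht ⟨t.2, q⟩).le
    have b := (tendsto_norm_cocompact_atTop (E := E)).comp (hv.comp (tendsto_nat_floor_atTop.comp a))
    refine tendsto_cocompact_of_tendsto_dist_comp_atTop 0
      (tendsto_atTop_mono (fun t => ?_) (tendsto_atTop_add_const_right _ (-B) b))
    have := norm_sub_norm_le (v ⌊t.1⌋₊) (γ t)
    simp only [γ, sub_add_cancel_left, norm_neg, norm_smul, Real.norm_of_nonneg (fr t).1] at this
    simp only [Function.comp, dist_zero_right, γ]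
    nlinarith [(fr t).1, (fr t).2, hb ⌊t.1⌋₊, norm_nonneg (v (⌊t.1⌋₊ + 1) - v ⌊t.1⌋₊)]
  · obtain ⟨a, b⟩ := inj _ _ _ (fr s) _ (fr t) e
    rw [a] at b
    exact Subtype.ext (by linarith)
  · refine Subset.antisymm (range_subset_iff.mpr fun t => ⟨_, _, fr t, rfl⟩) ?_
    rintro _ ⟨n, s, hs, rfl⟩
    have : ⌊n + s⌋₊ = n := (Nat.floor_eq_iff (by linarith [hs.1])).mpr
      ⟨by linarith [hs.1], by linarith [hs.2]⟩
    exact ⟨⟨n + s, add_nonneg n.cast_nonneg hs.1⟩, by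
      change v ⌊n + s⌋₊ + (n + s - ⌊n + s⌋₊) • (v (⌊n + s⌋₊ + 1) - v ⌊n + s⌋₊) = _
      simp [this]⟩

def Dir (d : ℤ × ℤ) : Prop :=
  d = (1, 0) ∨ d = (0, 1) ∨ d = (-1, 1) ∨ d = (-1, 0) ∨ d = (0, -1) ∨ d = (1, -1)

theorem edge {A B : ℤ} {d e : ℤ × ℤ} (hd : Dir d) (he : Dir e) {s t : ℝ} (hs : s ∈ Ico (0 : ℝ) 1)
    (ht : t ∈ Ico (0 : ℝ) 1) (a : A + s * d.1 = t * e.1) (b : B + s * d.2 = t * e.2) :
    (A = 0 ∧ B = 0 ∧ s = t) ∨ ((A, B) = e ∧ d = -e) := by
  obtain ⟨s0, s1⟩ := hs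
  obtain ⟨t0, t1⟩ := ht
  have h : ∀ x : ℤ, (-2 : ℝ) < x → (x : ℝ) < 2 → x = -1 ∨ x = 0 ∨ x = 1 := fun x u v => by
    norm_cast at u v
    omega
  rcases hd with rfl | rfl | rfl | rfl | rfl | rfl <;>
    rcases he with rfl | rfl | rfl | rfl | rfl | rfl <;> push_cast at a b <;>
    rcases h A (by linarith) (by linarith) with rfl | rfl | rfl <;>
    rcases h B (by linarith) (by linarith) with rfl | rfl | rfl <;> push_cast at a b <;>
    first
    | exact Or.inr ⟨rfl, rfl⟩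
    | exact Or.inl ⟨rfl, rfl, by linarith⟩
    | (exfalso; linarith)

def pos (o a b : E) (u : ℤ × ℤ) : E := o + (u.1 : ℝ) • a + (u.2 : ℝ) • b

theorem pos_tend (o : E) {a b : E} (ind : ∀ s t : ℝ, s • a + t • b = 0 → s = 0 ∧ t = 0) :
    Tendsto (pos o a b) cofinite (cocompact E) := by
  let f : ℝ × ℝ →ₗ[ℝ] E := (LinearMap.toSpanSingleton ℝ E a).coprod (LinearMap.toSpanSingleton ℝ E b)
  have h1 : IsClosedEmbedding f := LinearMap.isClosedEmbedding_of_injective
    (LinearMap.ker_eq_bot'.mpr fun p h => Prod.ext (ind _ _ h).1 (ind _ _ h).2)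
  have h2 := (((Homeomorph.addLeft o).isClosedEmbedding.comp h1).comp
    (Int.isClosedEmbedding_coe_real.prodMap Int.isClosedEmbedding_coe_real)).tendsto_cocompact
  rw [cocompact_eq_cofinite] at h2
  convert h2 using 1
  ext1 u
  simp [pos, f, add_assoc]

theorem arms {n : ℕ} (o : E) {a b : E} (ind : ∀ s t : ℝ, s • a + t • b = 0 → s = 0 ∧ t = 0)
    (nx : ℤ × ℤ → ℤ × ℤ) (hd : ∀ u, Dir (nx u - u)) (hi : nx.Injective) (st : Fin n → ℤ × ℤ)
    (si : st.Injective) (sn : ∀ j u, nx u ≠ st j) (sj : ∀ w, (∃ j, st j = w) ∨ ∃ u, nx u = w)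
    (A B : ℤ × ℤ → ℤ) (h0 : ∀ u, 0 ≤ A u ∧ 0 ≤ B u)
    (hA : ∀ u, A u < A (nx u) ∨ A u = A (nx u) ∧ B u < B (nx u)) :
    ∃ c : Fin n → Set E, (∀ j, ∃ γ : Ici (0 : ℝ) → E, IsProperMap γ ∧ γ.Injective ∧ range γ = c j) ∧
      (∀ i j, i ≠ j → Disjoint (c i) (c j)) ∧
      ⋃ j, c j = ⋃ w, segment ℝ (pos o a b w) (pos o a b (nx w)) := by
  have e : ∀ u w, pos o a b w - pos o a b u = ((w - u).1 : ℝ) • a + ((w - u).2 : ℝ) • b :=
    fun u w => by simp only [pos, Prod.fst_sub, Prod.snd_sub]; push_cast; module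
  have pl : ∀ u w, ∀ s ∈ Ico (0 : ℝ) 1, ∀ t ∈ Ico (0 : ℝ) 1,
      pos o a b u + s • (pos o a b (nx u) - pos o a b u) =
        pos o a b w + t • (pos o a b (nx w) - pos o a b w) → u = w ∧ s = t := fun u w s hs t ht q => by
    rw [e, e, ← sub_eq_zero, add_sub_add_comm, e] at q
    obtain ⟨x, y⟩ := ind ((u - w).1 + s * (nx u - u).1 - t * (nx w - w).1)
      ((u - w).2 + s * (nx u - u).2 - t * (nx w - w).2) (by rw [← q]; module)
    rcases edge (hd u) (hd w) hs ht (sub_eq_zero.mp x) (sub_eq_zero.mp y) with h | ⟨h, h'⟩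
    · exact ⟨sub_eq_zero.mp (Prod.ext h.1 h.2.1), h.2.2⟩
    · have h1 : nx w = u := (sub_left_injective h).symm
      have h2 : nx u = w := by rwa [h1, neg_sub, sub_left_inj] at h'
      have := hA u
      have := hA w
      rw [h1] at *
      rw [h2] at *
      omega
  have ob : ∀ k l i j, nx^[k] (st i) = nx^[l] (st j) → k = l ∧ i = j := fun k => by
    induction k with
    | zero => rintro (_ | l) i j h
              exacts [⟨rfl, si h⟩, absurd (Function.iterate_succ_apply' nx l _ ▸ h).symm (sn _ _)]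
    | succ k ih =>
      rintro (_ | l) i j h
      · exact absurd (Function.iterate_succ_apply' nx k _ ▸ h) (sn _ _)
      · rw [Function.iterate_succ_apply', Function.iterate_succ_apply'] at h
        exact ⟨congrArg _ (ih _ _ _ (hi h)).1, (ih _ _ _ (hi h)).2⟩
  have re : ∀ x y : ℕ, ∀ w, A w = x → B w = y → ∃ j k, nx^[k] (st j) = w := fun x => by
    induction x using Nat.strong_induction_on with
    | _ x ih =>
      intro y
      induction y using Nat.strong_induction_on with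
      | _ y ih' =>
        intro w p q
        rcases sj w with ⟨j, h⟩ | ⟨u, rfl⟩
        · exact ⟨j, 0, h⟩
        have := h0 u
        obtain ⟨j, k, h⟩ : ∃ j k, nx^[k] (st j) = u := by
          rcases hA u with h | h
          · exact ih (A u).toNat (by omega) (B u).toNat u (by omega) (by omega)
          · exact ih' (B u).toNat (by omega) u (by omega) (by omega)
        exact ⟨j, k + 1, by rw [Function.iterate_succ_apply', h]⟩
  refine ⟨fun j => {x | ∃ k, ∃ s ∈ Ico (0 : ℝ) 1, x = pos o a b (nx^[k] (st j)) +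
    s • (pos o a b (nx^[k + 1] (st j)) - pos o a b (nx^[k] (st j)))}, fun j => ray _
      ((pos_tend o ind).comp (Nat.cofinite_eq_atTop ▸ Function.Injective.tendsto_cofinite
        fun k l h => (ob k l j j h).1)) (‖a‖ + ‖b‖) (fun k => ?_) fun k l s hs t ht q => ?_,
    fun i j ne => disjoint_left.mpr ?_, Subset.antisymm (iUnion_subset ?_) (iUnion_subset ?_)⟩
  · rw [Function.iterate_succ_apply', e]
    refine (norm_add_le _ _).trans (add_le_add ?_ ?_) <;> rw [norm_smul] <;>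
      refine mul_le_of_le_one_left (norm_nonneg _) ?_ <;>
      rcases hd (nx^[k] (st j)) with h | h | h | h | h | h <;> simp [h]
  · simp only [Function.iterate_succ_apply'] at q
    exact ⟨(ob _ _ _ _ (pl _ _ s hs t ht q).1).1, (pl _ _ s hs t ht q).2⟩
  · rintro _ ⟨k, s, hs, rfl⟩ ⟨l, t, ht, q⟩
    simp only [Function.iterate_succ_apply'] at q
    exact ne (ob _ _ _ _ (pl _ _ s hs t ht q).1).2
  · rintro j _ ⟨k, s, hs, rfl⟩
    rw [Function.iterate_succ_apply']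
    exact mem_iUnion.mpr ⟨nx^[k] (st j), by
      rw [segment_eq_image']
      exact ⟨s, Ico_subset_Icc_self hs, rfl⟩⟩
  · intro w
    obtain ⟨j, k, rfl⟩ := re (A w).toNat (B w).toNat w (by have := h0 w; omega)
      (by have := h0 w; omega)
    rw [segment_eq_image']
    rintro _ ⟨s, hs, rfl⟩
    rcases hs.2.eq_or_lt with rfl | h
    · exact mem_iUnion.mpr ⟨j, k + 1, 0, by simp, by simp [Function.iterate_succ_apply']⟩
    · exact mem_iUnion.mpr ⟨j, k, s, ⟨hs.1, h⟩, by rw [Function.iterate_succ_apply']⟩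

theorem pick {U S W : Type} (R : U → S → W → Prop) (h : ∀ u, ∃ s w, R u s w) (ρ : W → U) (τ : W → S)
    (hρ : ρ.Injective) (hr : ∀ w, R (ρ w) (τ w) w) :
    ∃ (s : U → S) (m : U → W), (∀ u, R u (s u) (m u)) ∧ ∀ w, s (ρ w) = τ w ∧ m (ρ w) = w := by
  have : ∀ u, ∃ s m, R u s m ∧ ∀ w, ρ w = u → s = τ w ∧ m = w := fun u => by
    by_cases q : ∃ w, ρ w = u
    · obtain ⟨w, rfl⟩ := q
      exact ⟨_, _, hr w, fun v e => by rw [hρ e]; exact ⟨rfl, rfl⟩⟩
    · obtain ⟨s, m, e⟩ := h u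
      exact ⟨s, m, e, fun w e => absurd ⟨w, e⟩ q⟩
  choose s m a b using this
  exact ⟨s, m, a, fun w => b _ w rfl⟩

theorem arc {p q : E} (h : p ≠ q) : Nonempty (segment ℝ p q ≃ₜ Icc (0 : ℝ) 1) := by
  have : IsEmbedding fun t : Icc (0 : ℝ) 1 => AffineMap.lineMap p q t.1 :=
    (Continuous.isClosedEmbedding (by fun_prop)
      ((AffineMap.lineMap_injective ℝ h).comp Subtype.val_injective)).isEmbedding
  exact ⟨(Homeomorph.setCongr (by rw [segment_eq_image_lineMap, image_eq_range])).trans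
    this.toHomeomorph.symm⟩

theorem curve {γ : Ici (0 : ℝ) → E} (h : IsProperMap γ) (i : γ.Injective) :
    ¬Bornology.IsBounded (range γ) ∧ Nonempty (range γ ≃ₜ Ici (0 : ℝ)) := by
  have e := IsClosedEmbedding.of_continuous_injective_isClosedMap h.continuous i h.isClosedMap
  refine ⟨fun b => ?_, ⟨e.isEmbedding.toHomeomorph.symm⟩⟩
  have := h.isCompact_preimage (Metric.isCompact_of_isClosed_isBounded e.isClosed_range b)
  rw [preimage_range, isCompact_univ_iff, ← isCompact_iff_compactSpace] at this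
  exact not_bddAbove_Ici _ this.bddAbove

end Pool.Agent.Lib.helper5.Ray
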