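import Mathlib

set_option autoImplicit false
open Polynomial

namespace Pool.Agent.Lib.helper5.Stab

/-- no zero in the open upper half-plane -/
def NU (f : ℂ[X]) : Prop := ∀ z : ℂ, 0 < z.im → f.eval z ≠ 0

theorem NU.ne_zero {f : ℂ[X]} (h : NU f) : f ≠ 0 := by
  rintro rfl
  exact h Complex.I (by simp) (by simp)

theorem sum_im_neg (s : Multiset ℂ) (h : ∀ a ∈ s, a.im < 0) (hs : s ≠ 0) : s.sum.im < 0 := by
  induction s using Multiset.induction_on with
  | empty => exact absurd rfl hs
  | cons a s ih =>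
    rw [Multiset.sum_cons, Complex.add_im]
    have ha := h a (Multiset.mem_cons_self _ _)
    by_cases h0 : s = 0
    · subst h0
      simpa using ha
    · have := ih (fun b hb => h b (Multiset.mem_cons_of_mem hb)) h0
      linarith

theorem inv_im_neg {w : ℂ} (h : 0 < w.im) : (1 / w).im < 0 := by
  have hw : w ≠ 0 := by
    rintro rfl
    simp at h
  have : 0 < Complex.normSq w := Complex.normSq_pos.2 hw
  rw [one_div, Complex.inv_im]
  exact div_neg_of_neg_of_pos (by linarith) this

theorem logder_im_neg {f : ℂ[X]} (hf : NU f) (hd : derivative f ≠ 0) {z : ℂ} (hz : 0 < z.im) :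
    ((derivative f).eval z / f.eval z).im < 0 := by
  rw [(IsAlgClosed.splits f).eval_derivative_div_eval_of_ne_zero (hf z hz)]
  apply sum_im_neg
  · intro a ha
    obtain ⟨r, hr, rfl⟩ := Multiset.mem_map.1 ha
    apply inv_im_neg
    have hr' : f.eval r = 0 := (mem_roots hf.ne_zero).1 hr
    have : ¬ 0 < r.im := fun h => hf r h hr'
    rw [Complex.sub_im]
    linarith
  · intro h
    rw [Multiset.map_eq_zero] at h
    have hc : f.roots.card = f.natDegree := (IsAlgClosed.splits f).natDegree_eq_card_roots.symm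
    rw [h] at hc
    apply hd
    rw [eq_C_of_natDegree_eq_zero hc.symm]
    simp

/-- Hermite-Poulain step -/
theorem NU.step {f : ℂ[X]} (hf : NU f) {ζ : ℂ} (hζ : ζ.im ≤ 0)
    (hne : derivative f ≠ 0 ∨ ζ ≠ 0) : NU (derivative f + C ζ * f) := by
  intro z hz
  by_cases hd : derivative f = 0
  · rcases hne with h | h
    · exact absurd hd h
    · simp [hd, h, hf z hz]
  · have h1 := logder_im_neg hf hd hz
    intro h0
    have h2 : (derivative f).eval z / f.eval z = -ζ := by
      rw [div_eq_iff (hf z hz)]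
      simp only [eval_add, eval_mul, eval_C] at h0
      linear_combination h0
    rw [h2, Complex.neg_im] at h1
    linarith

theorem NU.der {f : ℂ[X]} (hf : NU f) (hd : derivative f ≠ 0) : NU (derivative f) := by
  simpa using hf.step (ζ := 0) (by simp) (Or.inl hd)

theorem NU.C_mul {f : ℂ[X]} (hf : NU f) {a : ℂ} (ha : a ≠ 0) : NU (C a * f) := by
  intro z hz
  simp [ha, hf z hz]

theorem NU.step' {f : ℂ[X]} (hf : NU f) {u : ℂ} (hu : u.im < 0) : NU (f - C u * derivative f) := by
  have hu0 : u ≠ 0 := by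
    rintro rfl
    simp at hu
  have h1 : (1 / (-u)).im < 0 := inv_im_neg (by simpa using hu)
  have h2 := (hf.step h1.le (Or.inr (by simpa using hu0))).C_mul (neg_ne_zero.2 hu0)
  convert h2 using 1
  rw [mul_add, ← mul_assoc, ← Polynomial.C_mul, mul_one_div_cancel (neg_ne_zero.2 hu0)]
  simp
  ring

theorem der_ne_zero_of_eval_zero {f : ℂ[X]} (hf : f ≠ 0) {a : ℂ} (h0 : f.eval a = 0) :
    derivative f ≠ 0 := by
  intro hd
  have := eq_C_of_natDegree_eq_zero (Polynomial.derivative_eq_zero.1 hd)
  rw [this] at h0 hf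
  simp at h0
  simp [h0] at hf

/-- a cubic symbol without zeros in the upper half-plane gives an operator preserving NU -/
theorem cubic_op {f : ℂ[X]} (hf : NU f) (a b e : ℂ) (he : e ≠ 0)
    (hS : ∀ ζ : ℂ, 0 < ζ.im → ζ ^ 3 - a * ζ ^ 2 + b * ζ - e ≠ 0) :
    NU (derivative (derivative (derivative f)) + C a * derivative (derivative f)
      + C b * derivative f + C e * f) := by
  obtain ⟨x, y, z, hxyz⟩ := (Cubic.splits_iff_roots_eq_three (φ := RingHom.id ℂ)
    (P := ⟨1, -a, b, -e⟩) one_ne_zero).1 (by simpa using IsAlgClosed.splits _)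
  have hb := Cubic.b_eq_three_roots (φ := RingHom.id ℂ) (P := ⟨1, -a, b, -e⟩) one_ne_zero hxyz
  have hc := Cubic.c_eq_three_roots (φ := RingHom.id ℂ) (P := ⟨1, -a, b, -e⟩) one_ne_zero hxyz
  have hd := Cubic.d_eq_three_roots (φ := RingHom.id ℂ) (P := ⟨1, -a, b, -e⟩) one_ne_zero hxyz
  simp only [RingHom.id_apply, one_mul, neg_inj] at hb hc hd
  have hx : x.im ≤ 0 := by
    by_contra h
    exact hS x (by linarith) (by rw [hb, hc, hd]; ring)
  have hy : y.im ≤ 0 := by
    by_contra h
    exact hS y (by linarith) (by rw [hb, hc, hd]; ring)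
  have hz : z.im ≤ 0 := by
    by_contra h
    exact hS z (by linarith) (by rw [hb, hc, hd]; ring)
  have hx0 : x ≠ 0 := by
    rintro rfl
    simp [hd] at he
  have hy0 : y ≠ 0 := by
    rintro rfl
    simp [hd] at he
  have hz0 : z ≠ 0 := by
    rintro rfl
    simp [hd] at he
  have := ((hf.step hx (Or.inr hx0)).step hy (Or.inr hy0)).step hz (Or.inr hz0)
  convert this using 1
  rw [hb, hc, hd]
  simp only [derivative_add, derivative_mul, derivative_C, zero_mul, zero_add, C_add, C_mul]
  ring

/-- Laguerre-type transform of a cubic with roots in the open lower half-plane -/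
theorem laguerre3 {u v w : ℂ} (hu : u.im < 0) (hv : v.im < 0) (hw : w.im < 0) (ζ : ℂ)
    (hζ : 0 < ζ.im) :
    ζ ^ 3 - (4 * (u + v + w)) * ζ ^ 2 + (12 * (u * v + u * w + v * w)) * ζ - 24 * (u * v * w) ≠ 0 := by
  have h0 : NU (X ^ 4) := by
    intro z hz
    have : z ≠ 0 := by
      rintro rfl
      simp at hz
    simp [this]
  have h3 := ((h0.step' hu).step' hv).step' hw ζ hζ
  intro h
  apply h3
  simp only [derivative_sub, derivative_mul, derivative_C, zero_mul, zero_add, derivative_X_pow,
    eval_sub, eval_mul, eval_C, eval_pow, eval_X]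
  push_cast
  norm_num
  linear_combination ζ * h

end Pool.Agent.Lib.helper5.Stab
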